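import Mathlib

section

set_option autoImplicit false

namespace Pool.Agent.MP_fd75d0_co

open MvPolynomial

abbrev F := ZMod 2
abbrev R := MvPolynomial (Fin 2) (ZMod 2)

noncomputable def x : R := X 0
noncomputable def y : R := X 1
noncomputable def z : R := X 0 + X 1

lemma z_eq : z = x + y := rfl

lemma two_R : (2 : R) = 0 := by
  have : ((2 : ℕ) : R) = 0 := CharP.cast_eq_zero R 2
  simpa using this

lemma add_self_R (f : R) : f + f = 0 := by linear_combination f * two_R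

lemma add_self_F (a : F) : a + a = 0 := by revert a; decide

lemma F_cases (a : F) : a = 0 ∨ a = 1 := by revert a; decide

lemma eq_of_add_eq_zero_R {f g : R} (h : f + g = 0) : f = g := by
  linear_combination h - g * two_R

lemma eq_of_add_eq_zero_F {f g : F} (h : f + g = 0) : f = g := by
  revert f g; decide

lemma sq_add_R (f g : R) : (f + g) ^ 2 = f ^ 2 + g ^ 2 := by
  linear_combination f * g * two_R

/-- substitution of two elements for the two variables -/
noncomputable def sb (p q : R) : R →+* R := eval₂Hom C ![p, q]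

@[simp] lemma sb_x (p q : R) : sb p q x = p := by simp [sb, x]
@[simp] lemma sb_y (p q : R) : sb p q y = q := by simp [sb, y]
@[simp] lemma sb_z (p q : R) : sb p q z = p + q := by simp [z_eq]

/-- evaluation at a point -/
noncomputable def ev (a b : F) : R →+* F := eval ![a, b]

@[simp] lemma ev_x (a b : F) : ev a b x = a := by simp [ev, x]
@[simp] lemma ev_y (a b : F) : ev a b y = b := by simp [ev, y]
@[simp] lemma ev_z (a b : F) : ev a b z = a + b := by simp [z_eq]

lemma x_ne : x ≠ 0 := fun h => by simpa using congrArg (ev 1 0) h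
lemma y_ne : y ≠ 0 := fun h => by simpa using congrArg (ev 0 1) h
lemma z_ne : z ≠ 0 := fun h => by simpa using congrArg (ev 0 1) h

/-- the transposition exchanging x and z -/
noncomputable def sg : R →+* R := sb z y
/-- the transposition exchanging y and z -/
noncomputable def ta : R →+* R := sb x z
/-- the cycle x to y to z to x -/
noncomputable def rh : R →+* R := sb y z

@[simp] lemma sg_x : sg x = z := by simp [sg]
@[simp] lemma sg_y : sg y = y := by simp [sg]
@[simp] lemma sg_z : sg z = x := by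
  simp only [sg, sb_z]; rw [z_eq]; linear_combination y * two_R
@[simp] lemma ta_x : ta x = x := by simp [ta]
@[simp] lemma ta_y : ta y = z := by simp [ta]
@[simp] lemma ta_z : ta z = y := by
  simp only [ta, sb_z]; rw [z_eq]; linear_combination x * two_R
@[simp] lemma rh_x : rh x = y := by simp [rh]
@[simp] lemma rh_y : rh y = z := by simp [rh]
@[simp] lemma rh_z : rh z = x := by
  simp only [rh, sb_z]; rw [z_eq]; linear_combination y * two_R

lemma hom_ext {S : Type*} [CommRing S] (f g : R →+* S) (hx : f x = g x) (hy : f y = g y) :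
    f = g := by
  apply MvPolynomial.ringHom_ext
  · intro r
    rcases F_cases r with rfl | rfl <;> simp
  · intro i
    fin_cases i
    · exact hx
    · exact hy

lemma sg_sg (f : R) : sg (sg f) = f := by
  have : sg.comp sg = RingHom.id R := hom_ext _ _ (by simp) (by simp)
  exact DFunLike.congr_fun this f

/-- forms of degree d -/
noncomputable def Hom (d : ℤ) : AddSubmonoid R :=
  AddSubmonoid.closure {f | ∃ a b : ℕ, (a : ℤ) + b = d ∧ f = x ^ a * y ^ b}

lemma Hom_ind {d : ℤ} {P : R → Prop} (h0 : P 0) (hadd : ∀ f g, P f → P g → P (f + g))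
    (hm : ∀ a b : ℕ, (a : ℤ) + b = d → P (x ^ a * y ^ b)) {f : R} (hf : f ∈ Hom d) : P f := by
  induction hf using AddSubmonoid.closure_induction with
  | mem f hf => obtain ⟨a, b, h, rfl⟩ := hf; exact hm a b h
  | zero => exact h0
  | add f g _ _ hf hg => exact hadd f g hf hg

lemma mon_mem {d : ℤ} (a b : ℕ) (h : (a : ℤ) + b = d) : x ^ a * y ^ b ∈ Hom d :=
  AddSubmonoid.subset_closure ⟨a, b, h, rfl⟩

lemma Hom_mul {d e k : ℤ} {f g : R} (hf : f ∈ Hom d) (hg : g ∈ Hom e) (h : d + e = k) :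
    f * g ∈ Hom k := by
  refine Hom_ind (P := fun f => f * g ∈ Hom k) (by simp) ?_ ?_ hf
  · intro f f' h1 h2; rw [add_mul]; exact add_mem h1 h2
  · intro a b hab
    refine Hom_ind (P := fun g => x ^ a * y ^ b * g ∈ Hom k) (by simp) ?_ ?_ hg
    · intro f f' h1 h2; rw [mul_add]; exact add_mem h1 h2
    · intro a' b' hab'
      have : x ^ a * y ^ b * (x ^ a' * y ^ b') = x ^ (a + a') * y ^ (b + b') := by ring
      rw [this]; apply mon_mem; push_cast; omega

lemma one_mem_Hom : (1 : R) ∈ Hom 0 := by simpa using mon_mem 0 0 (d := 0) (by simp)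
lemma x_mem : x ∈ Hom 1 := by simpa using mon_mem 1 0 (d := 1) (by simp)
lemma y_mem : y ∈ Hom 1 := by simpa using mon_mem 0 1 (d := 1) (by simp)
lemma z_mem : z ∈ Hom 1 := add_mem x_mem y_mem

lemma Hom_pow {d : ℤ} {f : R} (hf : f ∈ Hom d) (n : ℕ) : f ^ n ∈ Hom (n * d) := by
  induction n with
  | zero => simpa using one_mem_Hom
  | succ n ih => rw [pow_succ]; exact Hom_mul ih hf (by push_cast; ring)

lemma pow1_mem {d : ℤ} {f : R} (hf : f ∈ Hom 1) (n : ℕ) (h : (n : ℤ) = d) : f ^ n ∈ Hom d := by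
  have := Hom_pow hf n
  rwa [mul_one, h] at this

lemma mon3_mem {d : ℤ} (a b c : ℕ) (h : (a : ℤ) + b + c = d) :
    x ^ a * y ^ b * z ^ c ∈ Hom d :=
  Hom_mul (mon_mem a b rfl) (pow1_mem z_mem c rfl) h

lemma Hom_neg {d : ℤ} (hd : d < 0) {f : R} (hf : f ∈ Hom d) : f = 0 := by
  refine Hom_ind (P := fun f => f = 0) rfl ?_ ?_ hf
  · intro f g h1 h2; simp [h1, h2]
  · intro a b h; omega

lemma Hom_zero {f : R} (hf : f ∈ Hom 0) : f = 0 ∨ f = 1 := by
  refine Hom_ind (P := fun f => f = 0 ∨ f = 1) (Or.inl rfl) ?_ ?_ hf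
  · rintro f g (rfl | rfl) (rfl | rfl)
    · simp
    · simp
    · simp
    · left; exact add_self_R 1
  · intro a b h
    have ha : a = 0 := by omega
    have hb : b = 0 := by omega
    subst ha hb; simp

lemma Hom_map (φ : R →+* R) (hx : φ x ∈ Hom 1) (hy : φ y ∈ Hom 1) {d : ℤ} {f : R}
    (hf : f ∈ Hom d) : φ f ∈ Hom d := by
  refine Hom_ind (P := fun f => φ f ∈ Hom d) (by simp) ?_ ?_ hf
  · intro f g h1 h2; rw [map_add]; exact add_mem h1 h2
  · intro a b h
    rw [map_mul, map_pow, map_pow]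
    exact Hom_mul (pow1_mem hx a rfl) (pow1_mem hy b rfl) h

lemma sg_mem {d : ℤ} {f : R} (hf : f ∈ Hom d) : sg f ∈ Hom d :=
  Hom_map sg (by simpa using z_mem) (by simpa using y_mem) hf

lemma ta_mem {d : ℤ} {f : R} (hf : f ∈ Hom d) : ta f ∈ Hom d :=
  Hom_map ta (by simpa using x_mem) (by simpa using z_mem) hf

lemma rh_mem {d : ℤ} {f : R} (hf : f ∈ Hom d) : rh f ∈ Hom d :=
  Hom_map rh (by simpa using y_mem) (by simpa using z_mem) hf

/-- division by y of a form vanishing at the zero of y -/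
lemma Ydiv {d : ℤ} {f : R} (hf : f ∈ Hom d) (h0 : ev 1 0 f = 0) :
    ∃ f' ∈ Hom (d - 1), f = y * f' := by
  have key : ∃ f' ∈ Hom (d - 1), f = C (ev 1 0 f) * x ^ d.toNat + y * f' := by
    refine Hom_ind (P := fun f => ∃ f' ∈ Hom (d - 1), f = C (ev 1 0 f) * x ^ d.toNat + y * f')
      ⟨0, zero_mem _, by simp⟩ ?_ ?_ hf
    · rintro f g ⟨f', hf', h1⟩ ⟨g', hg', h2⟩
      refine ⟨f' + g', add_mem hf' hg', ?_⟩
      rw [map_add, map_add]
      linear_combination h1 + h2
    · intro a b h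
      rcases b with _ | b
      · refine ⟨0, zero_mem _, ?_⟩
        have : d.toNat = a := by omega
        simp [this]
      · refine ⟨x ^ a * y ^ b, mon_mem a b (by push_cast at h; omega), ?_⟩
        simp; ring
  obtain ⟨f', h1, h2⟩ := key
  exact ⟨f', h1, by rw [h0] at h2; simpa using h2⟩

end Pool.Agent.MP_fd75d0_co

end

section

set_option autoImplicit false

namespace Pool.Agent.MP_fd75d0_co

open MvPolynomial

/-- h is a form of degree d killing the functional on forms of degree g -/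
def Ann (ψ : R →+ F) (g d : ℤ) (h : R) : Prop :=
  h ∈ Hom d ∧ ∀ f ∈ Hom (g - d), ψ (h * f) = 0

lemma Ann.add {ψ : R →+ F} {g d : ℤ} {h h' : R} (h1 : Ann ψ g d h) (h2 : Ann ψ g d h') :
    Ann ψ g d (h + h') :=
  ⟨add_mem h1.1 h2.1, fun f hf => by rw [add_mul, map_add, h1.2 f hf, h2.2 f hf, add_zero]⟩

lemma lower {ψ : R →+ F} {g d : ℤ} {h p : R} (hh : h ∈ Hom (d - 1)) (hy : Ann ψ g d (y * h))
    (hp : p ∈ Hom (g - (d - 1))) (hp1 : ev 1 0 p = 1) (hp0 : ψ (h * p) = 0) :
    Ann ψ g (d - 1) h := by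
  refine ⟨hh, fun f hf => ?_⟩
  rcases F_cases (ev 1 0 f) with hc | hc
  · obtain ⟨f', hf', rfl⟩ := Ydiv hf hc
    have := hy.2 f' (by convert hf' using 2; ring)
    rw [← this]; congr 1; ring
  · obtain ⟨f', hf', e⟩ := Ydiv (add_mem hf hp) (by rw [map_add, hc, hp1]; decide)
    have e' : f = y * f' + p := by linear_combination e - p * two_R
    have := hy.2 f' (by convert hf' using 2; ring)
    rw [e', mul_add, map_add, hp0, add_zero, ← this]; congr 1; ring

lemma uniq (d : ℕ) : ∀ (ψ : R →+ F) (g : ℤ), 2 * (d : ℤ) ≤ g + 1 →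
    (∀ k, Ann ψ g ((d : ℤ) - 1) k → k = 0) →
    ∀ h h', Ann ψ g d h → Ann ψ g d h' → h ≠ 0 → h' ≠ 0 → h = h' := by
  induction d with
  | zero =>
    intro ψ g _ _ h h' h1 h2 n1 n2
    rcases Hom_zero h1.1 with e | e
    · exact absurd e n1
    rcases Hom_zero h2.1 with e' | e'
    · exact absurd e' n2
    rw [e, e']
  | succ d ih =>
    intro ψ g hg hmin h h' h1 h2 n1 n2
    have key : ∀ h0 h2, Ann ψ g ((d + 1 : ℕ) : ℤ) h0 → Ann ψ g ((d + 1 : ℕ) : ℤ) h2 →
        ev 1 0 h0 = 0 → ev 1 0 h2 = 1 → h0 = 0 := by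
      intro h0 h2 a0 a2 e0 e2
      obtain ⟨k, hk, rfl⟩ := Ydiv a0.1 e0
      obtain ⟨r, hr⟩ : ∃ r : ℕ, (r : ℤ) = g - 2 * d - 1 :=
        ⟨(g - 2 * d - 1).toNat, by push_cast at hg; omega⟩
      have := lower (p := x ^ r * h2) hk a0
        (Hom_mul (pow1_mem x_mem r rfl) a2.1 (by push_cast; omega)) (by simp [e2]) (by
          have := a2.2 (k * x ^ r) (Hom_mul hk (pow1_mem x_mem r rfl) (by push_cast; omega))
          rw [← this]; congr 1; ring)
      rw [hmin k this, mul_zero]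
    rcases F_cases (ev 1 0 h) with e | e <;> rcases F_cases (ev 1 0 h') with e' | e'
    · obtain ⟨k, hk, rfl⟩ := Ydiv h1.1 e
      obtain ⟨k', hk', rfl⟩ := Ydiv h2.1 e'
      have hd : ((d + 1 : ℕ) : ℤ) - 1 = d := by push_cast; ring
      rw [hd] at hk hk' hmin
      have := ih (ψ.comp (AddMonoidHom.mulLeft y)) (g - 1) (by push_cast at hg; omega) ?_ k k'
        ⟨hk, ?_⟩ ⟨hk', ?_⟩ (fun e => n1 (by rw [e, mul_zero])) (fun e => n2 (by rw [e, mul_zero]))
      · rw [this]
      · intro l hl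
        have : Ann ψ g d (y * l) := ⟨Hom_mul y_mem hl.1 (by ring), fun f hf => by
          have := hl.2 f (by convert hf using 2; ring)
          simpa [mul_assoc] using this⟩
        exact (mul_eq_zero.1 (hmin _ this)).resolve_left y_ne
      · intro f hf
        have := h1.2 f (by convert hf using 2; push_cast; ring)
        simpa [mul_assoc] using this
      · intro f hf
        have := h2.2 f (by convert hf using 2; push_cast; ring)
        simpa [mul_assoc] using this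
    · exact absurd (key h h' h1 h2 e e') n1
    · exact absurd (key h' h h2 h1 e' e) n2
    · exact eq_of_add_eq_zero_R (key (h + h') h (h1.add h2) h1
        (by rw [map_add, e, e']; decide) e)

lemma exists_ann (t : ℕ) (ψ : R →+ F) : ∃ h, h ≠ 0 ∧ Ann ψ (2 * (t : ℤ) - 1) t h := by
  classical
  let H : (Fin (t + 1) → F) → R := fun c => ∑ i : Fin (t + 1), C (c i) * (x ^ (i : ℕ) * y ^ (t - i))
  have Hmem : ∀ c, H c ∈ Hom t := by
    intro c
    refine sum_mem fun i _ => ?_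
    rcases F_cases (c i) with e | e
    · simp [e]
    · rw [e, map_one, one_mul]
      exact mon_mem _ _ (by have := i.2; omega)
  have Hinj : Function.Injective H := by
    intro c c' hcc
    funext j
    let φ : R →+* Polynomial F := eval₂Hom Polynomial.C ![Polynomial.X, 1]
    have hx : φ x = Polynomial.X := by simp [φ, x]
    have hy : φ y = 1 := by simp [φ, y]
    have hC : ∀ a, φ (C a) = Polynomial.C a := by intro a; simp [φ]
    have := congrArg (fun f => (φ f).coeff j) hcc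
    simp only [H, map_sum, map_mul, map_pow, hx, hy, hC, one_pow, mul_one,
      Polynomial.finsetSum_coeff, Polynomial.coeff_C_mul, Polynomial.coeff_X_pow] at this
    simpa [Fin.val_inj] using this
  let G : (Fin (t + 1) → F) → (Fin t → F) :=
    fun c k => ψ (H c * (x ^ (k : ℕ) * y ^ (t - 1 - k)))
  obtain ⟨c, c', hne, hG⟩ := Fintype.exists_ne_map_eq_of_card_lt G (by
    simp [Nat.pow_lt_pow_iff_right])
  refine ⟨H c + H c', fun e => hne (Hinj (eq_of_add_eq_zero_R e)), add_mem (Hmem c) (Hmem c'), ?_⟩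
  intro f hf
  refine Hom_ind (P := fun f => ψ ((H c + H c') * f) = 0) (by simp) ?_ ?_ hf
  · intro f g h1 h2; rw [mul_add, map_add, h1, h2, add_zero]
  · intro a b hab
    have ha : a < t := by omega
    have hb : b = t - 1 - a := by omega
    have := congrFun hG ⟨a, ha⟩
    simp only [G] at this
    rw [add_mul, map_add, hb, this, add_self_F]

end Pool.Agent.MP_fd75d0_co

end

section

set_option autoImplicit false

namespace Pool.Agent.MP_fd75d0_co

open MvPolynomial

/-- forms of degree d which are polynomials in x y y and z -/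
noncomputable def A (d : ℤ) : AddSubmonoid R :=
  AddSubmonoid.closure {f | ∃ i k : ℕ, 3 * (i : ℤ) + k = d ∧ f = (x * y ^ 2) ^ i * z ^ k}

lemma A_ind {d : ℤ} {P : R → Prop} (h0 : P 0) (hadd : ∀ f g, P f → P g → P (f + g))
    (hm : ∀ i k : ℕ, 3 * (i : ℤ) + k = d → P ((x * y ^ 2) ^ i * z ^ k)) {f : R} (hf : f ∈ A d) :
    P f := by
  induction hf using AddSubmonoid.closure_induction with
  | mem f hf => obtain ⟨a, b, h, rfl⟩ := hf; exact hm a b h
  | zero => exact h0
  | add f g _ _ hf hg => exact hadd f g hf hg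

lemma Amon_mem {d : ℤ} (i k : ℕ) (h : 3 * (i : ℤ) + k = d) : (x * y ^ 2) ^ i * z ^ k ∈ A d :=
  AddSubmonoid.subset_closure ⟨i, k, h, rfl⟩

lemma A_mul {d e k : ℤ} {f g : R} (hf : f ∈ A d) (hg : g ∈ A e) (h : d + e = k) :
    f * g ∈ A k := by
  refine A_ind (P := fun f => f * g ∈ A k) (by simp) ?_ ?_ hf
  · intro f f' h1 h2; rw [add_mul]; exact add_mem h1 h2
  · intro a b hab
    refine A_ind (P := fun g => (x * y ^ 2) ^ a * z ^ b * g ∈ A k) (by simp) ?_ ?_ hg
    · intro f f' h1 h2; rw [mul_add]; exact add_mem h1 h2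
    · intro a' b' hab'
      have : (x * y ^ 2) ^ a * z ^ b * ((x * y ^ 2) ^ a' * z ^ b')
          = (x * y ^ 2) ^ (a + a') * z ^ (b + b') := by ring
      rw [this]; apply Amon_mem; push_cast; omega

lemma z_memA : z ∈ A 1 := by simpa using Amon_mem 0 1 (d := 1) (by simp)
lemma E_memA : x * y ^ 2 ∈ A 3 := by simpa using Amon_mem 1 0 (d := 3) (by simp)
lemma one_memA : (1 : R) ∈ A 0 := by simpa using Amon_mem 0 0 (d := 0) (by simp)

lemma A_Hom {d : ℤ} {f : R} (hf : f ∈ A d) : f ∈ Hom d := by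
  refine A_ind (P := fun f => f ∈ Hom d) (zero_mem _) (fun f g => add_mem) ?_ hf
  intro i k h
  have : (x * y ^ 2) ^ i * z ^ k = x ^ i * y ^ (2 * i) * z ^ k := by ring
  rw [this]; apply mon3_mem; push_cast; omega

lemma A_neg {d : ℤ} (hd : d < 0) {f : R} (hf : f ∈ A d) : f = 0 := Hom_neg hd (A_Hom hf)

/-- the polynomial ring is generated by 1, x, x y over the subring -/
lemma decomp {d : ℤ} {f : R} (hf : f ∈ Hom d) :
    ∃ a0 ∈ A d, ∃ a1 ∈ A (d - 1), ∃ a2 ∈ A (d - 2), f = a0 + a1 * x + a2 * (x * y) := by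
  refine Hom_ind (P := fun f =>
    ∃ a0 ∈ A d, ∃ a1 ∈ A (d - 1), ∃ a2 ∈ A (d - 2), f = a0 + a1 * x + a2 * (x * y))
    ⟨0, zero_mem _, 0, zero_mem _, 0, zero_mem _, by simp⟩ ?_ ?_ hf
  · rintro f g ⟨a0, h0, a1, h1, a2, h2, rfl⟩ ⟨b0, k0, b1, k1, b2, k2, rfl⟩
    exact ⟨a0 + b0, add_mem h0 k0, a1 + b1, add_mem h1 k1, a2 + b2, add_mem h2 k2, by ring⟩
  · have mulx : ∀ (d : ℤ) (f : R),
        (∃ a0 ∈ A d, ∃ a1 ∈ A (d - 1), ∃ a2 ∈ A (d - 2), f = a0 + a1 * x + a2 * (x * y)) →
        (∃ a0 ∈ A (d + 1), ∃ a1 ∈ A (d + 1 - 1), ∃ a2 ∈ A (d + 1 - 2),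
          f * x = a0 + a1 * x + a2 * (x * y)) := by
      rintro d f ⟨a0, h0, a1, h1, a2, h2, rfl⟩
      refine ⟨a2 * (x * y ^ 2), A_mul h2 E_memA (by ring), a0 + a1 * z,
        add_mem (by simpa using h0) (A_mul h1 z_memA (by ring)), a1 + a2 * z,
        add_mem (by convert h1 using 2; ring) (A_mul h2 z_memA (by ring)), ?_⟩
      rw [z_eq]
      linear_combination (-(a1 * x * y) - a2 * x * y ^ 2) * two_R
    have mulz : ∀ (d : ℤ) (f : R),
        (∃ a0 ∈ A d, ∃ a1 ∈ A (d - 1), ∃ a2 ∈ A (d - 2), f = a0 + a1 * x + a2 * (x * y)) →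
        (∃ a0 ∈ A (d + 1), ∃ a1 ∈ A (d + 1 - 1), ∃ a2 ∈ A (d + 1 - 2),
          f * z = a0 + a1 * x + a2 * (x * y)) := by
      rintro d f ⟨a0, h0, a1, h1, a2, h2, rfl⟩
      exact ⟨a0 * z, A_mul h0 z_memA (by ring), a1 * z, A_mul h1 z_memA (by ring), a2 * z,
        A_mul h2 z_memA (by ring), by ring⟩
    intro a b hab
    clear hf
    subst hab
    induction a with
    | zero =>
      induction b with
      | zero => exact ⟨1, by simpa using one_memA, 0, zero_mem _, 0, zero_mem _, by simp⟩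
      | succ b ih =>
        obtain ⟨a0, h0, a1, h1, a2, h2, e⟩ := mulx _ _ ih
        obtain ⟨b0, k0, b1, k1, b2, k2, e'⟩ := mulz _ _ ih
        have hd : (((0 : ℕ) : ℤ) + ((b + 1 : ℕ) : ℤ)) = ((0 : ℕ) : ℤ) + (b : ℤ) + 1 := by
          push_cast; ring
        rw [hd]
        refine ⟨a0 + b0, add_mem h0 k0, a1 + b1, add_mem h1 k1, a2 + b2, add_mem h2 k2, ?_⟩
        rw [z_eq] at e'
        linear_combination e + e' - (x ^ 0 * y ^ b * x) * two_R
    | succ a ih =>
      obtain ⟨a0, h0, a1, h1, a2, h2, e⟩ := mulx _ _ ih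
      have hd : (((a + 1 : ℕ) : ℤ) + (b : ℤ)) = (a : ℤ) + (b : ℤ) + 1 := by
        push_cast; ring
      rw [hd]
      exact ⟨a0, h0, a1, h1, a2, h2, by linear_combination e⟩

lemma Ediv {d : ℤ} {f : R} (hf : f ∈ A d) (h0 : ev 1 0 f = 0) :
    ∃ f' ∈ A (d - 3), f = x * y ^ 2 * f' := by
  have key : ∃ f' ∈ A (d - 3), f = C (ev 1 0 f) * z ^ d.toNat + x * y ^ 2 * f' := by
    refine A_ind
      (P := fun f => ∃ f' ∈ A (d - 3), f = C (ev 1 0 f) * z ^ d.toNat + x * y ^ 2 * f')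
      ⟨0, zero_mem _, by simp⟩ ?_ ?_ hf
    · rintro f g ⟨f', hf', h1⟩ ⟨g', hg', h2⟩
      refine ⟨f' + g', add_mem hf' hg', ?_⟩
      rw [map_add, map_add]
      linear_combination h1 + h2
    · intro a b h
      rcases a with _ | a
      · refine ⟨0, zero_mem _, ?_⟩
        have : d.toNat = b := by omega
        simp [this]
      · refine ⟨(x * y ^ 2) ^ a * z ^ b, Amon_mem a b (by push_cast at h; omega), ?_⟩
        simp; ring
  obtain ⟨f', h1, h2⟩ := key
  exact ⟨f', h1, by rw [h0] at h2; simpa using h2⟩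

lemma ev_sg (f : R) : ev 1 0 (sg f) = ev 1 0 f := by
  have : (ev 1 0).comp sg = ev 1 0 := hom_ext _ _ (by simp) (by simp)
  exact DFunLike.congr_fun this f

lemma lemC (n : ℕ) : ∀ (da db : ℤ) (i k : ℕ) (a b : R), da + db < n → a ∈ A da → b ∈ A db →
    x ^ i * y * a = z ^ k * sg b → a = 0 := by
  induction n with
  | zero =>
    intro da db i k a b hn ha hb e
    by_cases h : da < 0
    · exact A_neg h ha
    · rw [A_neg (by push_cast at hn; omega) hb, map_zero, mul_zero] at e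
      exact (mul_eq_zero.1 e).resolve_left (mul_ne_zero (pow_ne_zero _ x_ne) y_ne)
  | succ n ih =>
    intro da db i k a b hn ha hb e
    have h0 : ev 1 0 b = 0 := by
      have := congrArg (ev 1 0) e
      simpa [ev_sg] using this.symm
    obtain ⟨b', hb', rfl⟩ := Ediv hb h0
    have e1 : x ^ i * a = z ^ (k + 1) * y * sg b' := by
      apply mul_left_cancel₀ y_ne
      simp only [map_mul, map_pow, sg_x, sg_y] at e
      linear_combination e
    have e2 : x ^ (k + 1) * y * b' = z ^ i * sg a := by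
      have := congrArg sg e1
      simp only [map_mul, map_pow, sg_x, sg_y, sg_z, sg_sg] at this
      exact this.symm
    have := ih (db - 3) da (k + 1) i b' a (by push_cast at hn; omega) hb' ha e2
    rw [this, map_zero, mul_zero] at e1
    exact (mul_eq_zero.1 e1).resolve_left (pow_ne_zero _ x_ne)

lemma A_even {m : ℤ} {f : R} (hf : f ∈ A (2 * m)) :
    ∃ a0 ∈ A m, ∃ a3 ∈ A (m - 2), f = a0 ^ 2 + x * y ^ 2 * z * a3 ^ 2 := by
  refine A_ind (P := fun f => ∃ a0 ∈ A m, ∃ a3 ∈ A (m - 2), f = a0 ^ 2 + x * y ^ 2 * z * a3 ^ 2)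
    ⟨0, zero_mem _, 0, zero_mem _, by simp⟩ ?_ ?_ hf
  · rintro f g ⟨a0, h0, a1, h1, rfl⟩ ⟨b0, k0, b1, k1, rfl⟩
    exact ⟨a0 + b0, add_mem h0 k0, a1 + b1, add_mem h1 k1, by rw [sq_add_R, sq_add_R]; ring⟩
  · intro i k h
    rcases Nat.even_or_odd' i with ⟨i, rfl | rfl⟩
    · obtain ⟨k, rfl⟩ : ∃ l, k = 2 * l := ⟨k / 2, by omega⟩
      exact ⟨_, Amon_mem i k (by push_cast at h; omega), 0, zero_mem _, by ring⟩
    · obtain ⟨k, rfl⟩ : ∃ l, k = 2 * l + 1 := ⟨k / 2, by omega⟩
      exact ⟨0, zero_mem _, _, Amon_mem i k (by push_cast at h; omega), by ring⟩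

lemma A_odd {m : ℤ} {f : R} (hf : f ∈ A (2 * m + 1)) :
    ∃ a1 ∈ A (m - 1), ∃ a2 ∈ A m, f = x * (y * a1) ^ 2 + z * a2 ^ 2 := by
  refine A_ind (P := fun f => ∃ a1 ∈ A (m - 1), ∃ a2 ∈ A m, f = x * (y * a1) ^ 2 + z * a2 ^ 2)
    ⟨0, zero_mem _, 0, zero_mem _, by simp⟩ ?_ ?_ hf
  · rintro f g ⟨a0, h0, a1, h1, rfl⟩ ⟨b0, k0, b1, k1, rfl⟩
    exact ⟨a0 + b0, add_mem h0 k0, a1 + b1, add_mem h1 k1, by
      rw [mul_add y, sq_add_R, sq_add_R]; ring⟩
  · intro i k h
    rcases Nat.even_or_odd' i with ⟨i, rfl | rfl⟩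
    · obtain ⟨k, rfl⟩ : ∃ l, k = 2 * l + 1 := ⟨k / 2, by omega⟩
      exact ⟨0, zero_mem _, _, Amon_mem i k (by push_cast at h; omega), by ring⟩
    · obtain ⟨k, rfl⟩ : ∃ l, k = 2 * l := ⟨k / 2, by omega⟩
      exact ⟨_, Amon_mem i k (by push_cast at h; omega), 0, zero_mem _, by ring⟩

lemma pd_sq (i : Fin 2) (f : R) : pderiv i (f ^ 2) = 0 := by
  rw [pow_two, Derivation.leibniz, smul_eq_mul, add_self_R]

lemma pd_mul_sq (i : Fin 2) (f g : R) : pderiv i (f * g ^ 2) = pderiv i f * g ^ 2 := by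
  rw [Derivation.leibniz, pd_sq]; simp [mul_comm]

lemma sq_inj {f g : R} (h : f ^ 2 = g ^ 2) : f = g := by
  apply eq_of_add_eq_zero_R
  have : (f + g) ^ 2 = 0 := by rw [sq_add_R, h, add_self_R]
  exact pow_eq_zero_iff (two_ne_zero) |>.1 this

lemma pd1_x : pderiv (1 : Fin 2) x = 0 := by simp [x]
lemma pd1_z : pderiv (1 : Fin 2) z = 1 := by simp [z]

lemma split_even {a b a' b' : R} (h : a ^ 2 + x * z * b ^ 2 = a' ^ 2 + x * z * b' ^ 2) :
    a = a' ∧ b = b' := by
  have h1 := congrArg (pderiv (1 : Fin 2)) h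
  simp only [map_add, pd_sq, pd_mul_sq, zero_add] at h1
  have h2 : pderiv (1 : Fin 2) (x * z) = x := by
    rw [Derivation.leibniz, pd1_x, pd1_z]; simp
  rw [h2] at h1
  have hb : b = b' := sq_inj (mul_left_cancel₀ x_ne h1)
  subst hb
  exact ⟨sq_inj (add_right_cancel h), rfl⟩

lemma split_odd {a b a' b' : R} (h : x * a ^ 2 + z * b ^ 2 = x * a' ^ 2 + z * b' ^ 2) :
    a = a' ∧ b = b' := by
  have h1 := congrArg (pderiv (1 : Fin 2)) h
  simp only [map_add, pd_mul_sq, pd1_x, pd1_z, zero_mul, one_mul, zero_add] at h1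
  have hb : b = b' := sq_inj h1
  subst hb
  exact ⟨sq_inj (mul_left_cancel₀ x_ne (add_right_cancel h)), rfl⟩

/-- the intersection of the subring with its mirror image -/
lemma lemB (n : ℕ) : ∀ (d : ℤ) (a b : R), d < n → a ∈ A d → b ∈ A d → a = sg b →
    a = 0 ∨ ∃ j : ℕ, d = 4 * j ∧ a = (x * y ^ 2 * z) ^ j := by
  induction n with
  | zero => intro d a b hd ha _ _; exact Or.inl (A_neg (by simpa using hd) ha)
  | succ n ih =>
    intro d a b hd ha hb e
    rcases lt_trichotomy d 0 with h | h | h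
    · exact Or.inl (A_neg h ha)
    · subst h
      rcases Hom_zero (A_Hom ha) with h | h
      · exact Or.inl h
      · exact Or.inr ⟨0, by simp, by simpa using h⟩
    rcases Int.even_or_odd' d with ⟨m, rfl | rfl⟩
    · obtain ⟨a0, h0, a3, h3, rfl⟩ := A_even ha
      obtain ⟨b0, k0, b3, k3, rfl⟩ := A_even hb
      simp only [map_add, map_mul, map_pow, sg_x, sg_y, sg_z] at e
      obtain ⟨e0, e3⟩ := split_even (a := a0) (b := y * a3) (a' := sg b0) (b' := y * sg b3)
        (by linear_combination e)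
      have e3' := mul_left_cancel₀ y_ne e3
      rcases ih m a0 b0 (by push_cast at hd; omega) h0 k0 e0 with r0 | ⟨j, hj, r0⟩ <;>
      rcases ih (m - 2) a3 b3 (by push_cast at hd; omega) h3 k3 e3' with r3 | ⟨j', hj', r3⟩
      · left; rw [r0, r3]; ring
      · right; exact ⟨2 * j' + 1, by push_cast; omega, by rw [r0, r3]; ring⟩
      · right; exact ⟨2 * j, by push_cast; omega, by rw [r0, r3]; ring⟩
      · omega
    · obtain ⟨a1, h1, a2, h2, rfl⟩ := A_odd ha
      obtain ⟨b1, k1, b2, k2, rfl⟩ := A_odd hb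
      simp only [map_add, map_mul, map_pow, sg_x, sg_y, sg_z] at e
      obtain ⟨e1, e2⟩ := split_odd (a := y * a1) (b := a2) (a' := sg b2) (b' := y * sg b1)
        (by linear_combination e)
      have r1 : a1 = 0 := lemC (2 * m).toNat (m - 1) m 0 0 a1 b2 (by omega) h1 k2 (by simpa using e1)
      have r2 : b1 = 0 := lemC (2 * m).toNat (m - 1) m 0 0 b1 a2 (by omega) k1 h2 (by
        have := congrArg sg e2
        simpa [sg_sg] using this.symm)
      left
      rw [r1, e2, r2]; simp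

end Pool.Agent.MP_fd75d0_co

end

section

set_option autoImplicit false

namespace Pool.Agent.MP_fd75d0_co

open MvPolynomial

lemma rh3 (f : R) : rh (rh (rh f)) = f := by
  have : rh.comp (rh.comp rh) = RingHom.id R := hom_ext _ _ (by simp) (by simp)
  exact DFunLike.congr_fun this f

section
variable {ψ : R →+ F} {g : ℤ}

lemma psi_decomp (h3 : ∀ a ∈ A g, ψ a = 0) (h4 : ∀ a ∈ A (g - 2), ψ (a * (x * y)) = 0)
    {d : ℤ} {a b0 b1 b2 : R} (ha : a ∈ A d) (k0 : b0 ∈ A (g - d)) (k2 : b2 ∈ A (g - d - 2)) :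
    ψ (a * (b0 + b1 * x + b2 * (x * y))) = ψ (a * b1 * x) := by
  have e : a * (b0 + b1 * x + b2 * (x * y)) = a * b0 + a * b1 * x + a * b2 * (x * y) := by ring
  rw [e, map_add, map_add, h3 _ (A_mul ha k0 (by ring)), h4 _ (A_mul ha k2 (by ring))]
  simp

lemma ann_split (h3 : ∀ a ∈ A g, ψ a = 0) (h4 : ∀ a ∈ A (g - 2), ψ (a * (x * y)) = 0)
    {d : ℤ} (hmin : ∀ k, Ann ψ g (d - 1) k → k = 0) {h : R} (hh : Ann ψ g d h) :
    ∃ a0 ∈ A d, ∃ a2 ∈ A (d - 2), h = a0 + a2 * (x * y) ∧ Ann ψ g d a0 := by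
  obtain ⟨a0, h0, a1, h1, a2, h2, rfl⟩ := decomp hh.1
  have ha1 : a1 = 0 := by
    apply hmin
    refine ⟨A_Hom h1, fun f hf => ?_⟩
    obtain ⟨b0, k0, b1, k1, b2, k2, rfl⟩ := decomp hf
    rw [psi_decomp h3 h4 h1 k0 k2]
    have k1' : b1 ∈ A (g - d) := by convert k1 using 2; ring
    have := hh.2 b1 (A_Hom k1')
    rw [mul_comm, psi_decomp (d := g - d) h3 h4 k1' (by simpa using h0) (by simpa using h2)] at this
    rw [← this]; congr 1; ring
  subst ha1
  refine ⟨a0, h0, a2, h2, by simp, A_Hom h0, fun f hf => ?_⟩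
  obtain ⟨b0, k0, b1, k1, b2, k2, rfl⟩ := decomp hf
  rw [psi_decomp h3 h4 h0 k0 k2]
  have := hh.2 (b1 * x) (Hom_mul (A_Hom k1) x_mem (by ring))
  have e : (a0 + 0 * x + a2 * (x * y)) * (b1 * x)
      = a0 * b1 * x + a2 * b1 * (x * y ^ 2) + a2 * b1 * z * (x * y) := by
    rw [z_eq]; linear_combination (-(a2 * b1 * x * y ^ 2)) * two_R
  rw [e, map_add, map_add, h3 _ (A_mul (A_mul h2 k1 rfl) E_memA (by ring)),
    h4 _ (A_mul (A_mul h2 k1 rfl) z_memA (by ring))] at this
  simpa using this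

lemma boundary_case (h1 : ∀ f ∈ Hom g, ψ (sg f) = ψ f)
    (h2 : ∀ f ∈ Hom g, ψ f + ψ (rh f) + ψ (rh (rh f)) = 0) (h3 : ∀ a ∈ A g, ψ a = 0)
    (hg : 2 ≤ g) (hh : Ann ψ g 3 (x * y * z)) : ∀ f ∈ Hom g, ψ f = 0 := by
  obtain ⟨n, rfl⟩ : ∃ n : ℕ, g = (n : ℤ) + 2 := ⟨(g - 2).toNat, by omega⟩
  have step : ∀ a b : ℕ, a + b + 1 = n →
      ψ (x ^ (a + 2) * y ^ (b + 1)) = ψ (x ^ (a + 1) * y ^ (b + 2)) := by
    intro a b hab
    apply eq_of_add_eq_zero_F
    rw [← map_add, ← hh.2 (x ^ a * y ^ b) (mon_mem a b (by omega))]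
    congr 1; rw [z_eq]; ring
  have const : ∀ b a : ℕ, a + b = n →
      ψ (x ^ (a + 1) * y ^ (b + 1)) = ψ (x ^ (n + 1) * y) := by
    intro b
    induction b with
    | zero => intro a h; simp [← h]
    | succ b ih => intro a h; rw [← step a b (by omega), ih (a + 1) (by omega)]
  have m1 : x ^ (n + 1) * y ∈ Hom ((n : ℤ) + 2) :=
    Hom_mul (pow1_mem x_mem _ rfl) y_mem (by push_cast; ring)
  have m2 : x * y ^ (n + 1) ∈ Hom ((n : ℤ) + 2) :=
    Hom_mul x_mem (pow1_mem y_mem _ rfl) (by push_cast; ring)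
  have hz : ψ (z ^ (n + 2)) = 0 := by
    simpa using h3 _ (Amon_mem 0 (n + 2) (by push_cast; ring))
  have c1 := const n 0 (by omega)
  have s1 := h1 _ m1
  have s2 := h1 _ m2
  have r := h2 _ m1
  simp only [map_mul, map_pow, sg_x, sg_y, rh_x, rh_y, rh_z, zero_add, pow_one] at s1 s2 r c1
  have e1 : z ^ (n + 2) = z ^ (n + 1) * x + z ^ (n + 1) * y := by rw [pow_succ, ← mul_add, ← z_eq]
  rw [e1, map_add, s1] at hz
  rw [mul_comm (y ^ (n + 1)) z, s2, c1, add_self_F, zero_add] at r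
  rw [r, zero_add] at hz
  intro f hf
  refine Hom_ind (P := fun f => ψ f = 0) (by simp) ?_ ?_ hf
  · intro f g h1 h2; rw [map_add, h1, h2, add_zero]
  · intro a b hab
    rcases a with _ | a
    · obtain rfl : b = n + 2 := by omega
      have : x ^ 0 * y ^ (n + 2) = x * y ^ (n + 1) + z * y ^ (n + 1) := by
        rw [z_eq]; linear_combination (-(x * y ^ (n + 1))) * two_R
      rw [this, map_add, s2, add_self_F]
    rcases b with _ | b
    · obtain rfl : a = n + 1 := by omega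
      have := h1 (x ^ (n + 2)) (pow1_mem x_mem _ (by push_cast; ring))
      simp only [map_pow, sg_x] at this
      rw [pow_zero, mul_one, ← this]
      simpa using h3 _ (Amon_mem 0 (n + 2) (by push_cast; ring))
    · rw [const b a (by omega), hz]

theorem core (t : ℕ) (hg : g = 2 * (t : ℤ) - 1) (h1 : ∀ f ∈ Hom g, ψ (sg f) = ψ f)
    (h2 : ∀ f ∈ Hom g, ψ f + ψ (rh f) + ψ (rh (rh f)) = 0) (h3 : ∀ a ∈ A g, ψ a = 0)
    (h4 : ∀ a ∈ A (g - 2), ψ (a * (x * y)) = 0) : ∀ f ∈ Hom g, ψ f = 0 := by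
  classical
  have hex : ∃ d : ℕ, ∃ h, h ≠ 0 ∧ Ann ψ g d h := ⟨t, hg ▸ exists_ann t ψ⟩
  set d := Nat.find hex with hd
  obtain ⟨h, hne, hh⟩ : ∃ h, h ≠ 0 ∧ Ann ψ g d h := Nat.find_spec hex
  have hdt : d ≤ t := Nat.find_min' hex (hg ▸ exists_ann t ψ)
  have hmin : ∀ k, Ann ψ g ((d : ℤ) - 1) k → k = 0 := by
    intro k hk
    by_contra hk0
    rcases Nat.eq_zero_or_pos d with h0 | h0
    · exact hk0 (Hom_neg (by omega) hk.1)
    · refine Nat.find_min hex (m := d - 1) (by omega) ⟨k, hk0, ?_⟩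
      rwa [Nat.cast_pred h0]
  have hu := uniq d ψ g (by omega) hmin
  have hs : h = sg h := by
    refine hu _ _ hh ⟨sg_mem hh.1, fun f hf => ?_⟩ hne (fun e => hne (by rw [← sg_sg h, e, map_zero]))
    rw [← hh.2 (sg f) (sg_mem hf), ← h1 _ (Hom_mul hh.1 (sg_mem hf) (by ring)), map_mul sg, sg_sg]
  obtain ⟨a0, h0, a2, h2', e, ha0⟩ := ann_split h3 h4 hmin hh
  -- shape of h
  have shape : ∃ j k : ℕ, (k = 2 * j ∨ k + 1 = 2 * j) ∧ d = 2 * j + k ∧
      h = x ^ j * y ^ k * z ^ j := by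
    by_cases ha : a0 = 0
    · subst ha
      rw [zero_add] at e
      have hE : a2 * (x * y ^ 2) = sg (a2 * (x * y ^ 2)) := by
        have e1 : a2 * (x * y ^ 2) = h * y := by rw [e]; ring
        rw [e1, map_mul, ← hs, sg_y]
      have hm : a2 * (x * y ^ 2) ∈ A ((d : ℤ) + 1) := A_mul h2' E_memA (by ring)
      rcases lemB (d + 2) _ _ _ (by push_cast; omega) hm hm hE with r | ⟨j, hj, r⟩
      · exfalso; apply hne
        have : a2 = 0 :=
          (mul_eq_zero.1 r).resolve_right (mul_ne_zero x_ne (pow_ne_zero _ y_ne))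
        rw [e, this, zero_mul]
      · obtain ⟨j, rfl⟩ : ∃ l, j = l + 1 := ⟨j - 1, by omega⟩
        refine ⟨j + 1, 2 * j + 1, Or.inr (by ring), by omega, ?_⟩
        apply mul_left_cancel₀ y_ne
        rw [e]; linear_combination r
    · have e0 : a0 = h := hu _ _ ha0 hh ha hne
      rw [e0] at h0
      rcases lemB (d + 1) _ _ _ (by push_cast; omega) h0 h0 hs with r | ⟨j, hj, r⟩
      · exact absurd r hne
      · exact ⟨j, 2 * j, Or.inl rfl, by omega, by rw [r]; ring⟩
  obtain ⟨j, k, hk, hdk, rfl⟩ := shape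
  have hkj : k ≤ j := by
    by_contra hlt
    obtain ⟨m, rfl⟩ : ∃ m, k = j + m + 1 := ⟨k - j - 1, by omega⟩
    obtain ⟨r, hr⟩ : ∃ r : ℕ, (r : ℤ) = g - d + 1 - 2 * (m + 1) :=
      ⟨(g - d + 1 - 2 * (m + 1)).toNat, by omega⟩
    have hy : Ann ψ g d (y * (x ^ j * y ^ (j + m) * z ^ j)) := by
      convert hh using 1; ring
    have := lower (p := x ^ r * (x * z) ^ (m + 1)) (mon3_mem j (j + m) j (by push_cast; omega)) hy
      (Hom_mul (pow1_mem x_mem r rfl) (Hom_pow (Hom_mul x_mem z_mem rfl) (m + 1))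
        (by push_cast; omega)) (by simp) (by
        have hf : x ^ j * y ^ (j + m) * z ^ j * (x ^ r * (x * z) ^ (m + 1)) ∈ Hom g := by
          have : x ^ j * y ^ (j + m) * z ^ j * (x ^ r * (x * z) ^ (m + 1))
            = x ^ (j + r + m + 1) * y ^ (j + m) * z ^ (j + m + 1) := by ring
          rw [this]; apply mon3_mem; push_cast; omega
        have := h2 _ hf
        simp only [map_mul, map_pow, rh_x, rh_y, rh_z] at this
        have e1 := hh.2 (x ^ (m + 1) * y ^ r * z ^ m) (mon3_mem _ _ _ (by push_cast; omega))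
        have e2 := hh.2 (x ^ m * y ^ 0 * z ^ (r + m + 1)) (mon3_mem _ _ _ (by push_cast; omega))
        have f1 : y ^ j * z ^ (j + m) * x ^ j * (y ^ r * (y * x) ^ (m + 1))
          = x ^ j * y ^ (j + m + 1) * z ^ j * (x ^ (m + 1) * y ^ r * z ^ m) := by ring
        have f2 : z ^ j * x ^ (j + m) * y ^ j * (z ^ r * (z * y) ^ (m + 1))
          = x ^ j * y ^ (j + m + 1) * z ^ j * (x ^ m * y ^ 0 * z ^ (r + m + 1)) := by ring
        rw [f1, f2, e1, e2] at this
        simpa using this)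
    have := hmin _ this
    exact mul_ne_zero (mul_ne_zero (pow_ne_zero _ x_ne) (pow_ne_zero _ y_ne))
      (pow_ne_zero _ z_ne) this
  rcases hk with hk | hk
  · obtain rfl : j = 0 := by omega
    obtain rfl : k = 0 := by omega
    intro f hf
    have := hh.2 f (by rw [hdk]; simpa using hf)
    simpa using this
  · obtain rfl : j = 1 := by omega
    obtain rfl : k = 1 := by omega
    refine boundary_case h1 h2 h3 (by omega) ?_
    rw [hdk] at hh
    simpa using hh

end

end Pool.Agent.MP_fd75d0_co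

end

section

set_option autoImplicit false

namespace Pool.Agent.MP_fd75d0_co

open MvPolynomial

noncomputable def fr : R →+* R := sb (x ^ 2) (y ^ 2)
noncomputable def kp : R →+* R := sb (x ^ 2) (y * z)

@[simp] lemma fr_x : fr x = x ^ 2 := by simp [fr]
@[simp] lemma fr_y : fr y = y ^ 2 := by simp [fr]
@[simp] lemma fr_z : fr z = z ^ 2 := by simp only [fr, sb_z]; rw [z_eq, sq_add_R]
@[simp] lemma kp_x : kp x = x ^ 2 := by simp [kp]
@[simp] lemma kp_y : kp y = y * z := by simp [kp]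
@[simp] lemma kp_z : kp z = x ^ 2 + y * z := by simp [kp]

lemma fr_sg (f : R) : fr (sg f) = sg (fr f) :=
  DFunLike.congr_fun (hom_ext (fr.comp sg) (sg.comp fr) (by simp) (by simp)) f
lemma fr_rh (f : R) : fr (rh f) = rh (fr f) :=
  DFunLike.congr_fun (hom_ext (fr.comp rh) (rh.comp fr) (by simp) (by simp)) f
lemma rh_eq (f : R) : rh f = ta (sg f) :=
  DFunLike.congr_fun (hom_ext rh (ta.comp sg) (by simp) (by simp)) f
lemma rh_sg (f : R) : rh (sg f) = ta f :=
  DFunLike.congr_fun (hom_ext (rh.comp sg) ta (by simp) (by simp)) f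

lemma fr_mem {d : ℤ} {f : R} (hf : f ∈ Hom d) : fr f ∈ Hom (2 * d) := by
  refine Hom_ind (P := fun f => fr f ∈ Hom (2 * d)) (by simp) ?_ ?_ hf
  · intro f g h1 h2; rw [map_add]; exact add_mem h1 h2
  · intro a b h
    simp only [map_mul, map_pow, fr_x, fr_y, ← pow_mul]
    apply mon_mem; push_cast; omega

lemma kp_A {d : ℤ} {a : R} (ha : a ∈ A d) :
    sg (kp a) = kp a ∧ ta (kp a) = kp a ∧ kp a ∈ Hom (2 * d) := by
  refine A_ind (P := fun a => sg (kp a) = kp a ∧ ta (kp a) = kp a ∧ kp a ∈ Hom (2 * d))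
    (by simp) ?_ ?_ ha
  · rintro f g ⟨h1, h2, h3⟩ ⟨k1, k2, k3⟩
    simp only [map_add]
    exact ⟨by rw [h1, k1], by rw [h2, k2], add_mem h3 k3⟩
  · intro i k h
    have q1 : z ^ 2 + y * x = x ^ 2 + y * z := by rw [z_eq]; linear_combination (x * y) * two_R
    simp only [map_mul, map_pow, map_add, kp_x, kp_y, kp_z, sg_x, sg_y, sg_z, ta_x, ta_y, ta_z]
    refine ⟨by rw [q1]; ring, by ring, ?_⟩
    have m1 : x ^ 2 * (y * z) ^ 2 ∈ Hom 6 := by
      have : x ^ 2 * (y * z) ^ 2 = x ^ 2 * y ^ 2 * z ^ 2 := by ring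
      rw [this]; exact mon3_mem _ _ _ (by norm_num)
    have m2 : x ^ 2 + y * z ∈ Hom 2 :=
      add_mem (pow1_mem x_mem 2 rfl) (Hom_mul y_mem z_mem rfl)
    exact Hom_mul (Hom_pow m1 i) (Hom_pow m2 k) (by omega)

/-- A dihedrally symmetric triangle of odd degree whose even rows have equal end cell and
central cell vanishes. -/
theorem sym_zero (χ : R →+ F) (g : ℤ) (t : ℕ) (hg : g = 2 * (t : ℤ) - 1)
    (hs : ∀ f ∈ Hom (2 * g + 1), χ (sg f) = χ f) (ht : ∀ f ∈ Hom (2 * g + 1), χ (ta f) = χ f)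
    (he : ∀ a b : ℕ, (a : ℤ) + b = g →
      χ (x ^ (2 * a) * y ^ (2 * b + 1)) = χ (x ^ (2 * a) * y ^ (b + 1) * z ^ b)) :
    ∀ f ∈ Hom (2 * g + 1), χ f = 0 := by
  have hr : ∀ f ∈ Hom (2 * g + 1), χ (rh f) = χ f := by
    intro f hf; rw [rh_eq, ht _ (sg_mem hf), hs _ hf]
  let ψ : R →+ F := χ.comp ((AddMonoidHom.mulLeft y).comp fr.toAddMonoidHom)
  have hψ : ∀ f, ψ f = χ (y * fr f) := fun f => rfl
  have ym : ∀ {f : R}, f ∈ Hom (2 * g) → y * f ∈ Hom (2 * g + 1) :=
    fun hf => Hom_mul y_mem hf (by ring)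
  have hΘ : ∀ f ∈ Hom g, ψ f = χ (y * kp f) := by
    intro f hf
    refine Hom_ind (P := fun f => ψ f = χ (y * kp f)) (by simp) ?_ ?_ hf
    · intro f g h1 h2; rw [map_add, h1, h2, map_add, mul_add, map_add]
    · intro a b hab
      rw [hψ]
      simp only [map_mul, map_pow, fr_x, fr_y, kp_x, kp_y]
      have := he a b hab
      convert this using 2 <;> ring
  have key := core (ψ := ψ) t hg ?_ ?_ ?_ ?_
  · intro f hf
    refine Hom_ind (P := fun f => χ f = 0) (by simp) ?_ ?_ hf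
    · intro f g h1 h2; rw [map_add, h1, h2, add_zero]
    · have aux : ∀ a b : ℕ, (a : ℤ) + b = g → χ (x ^ (2 * a) * y ^ (2 * b + 1)) = 0 := by
        intro a b hab
        have := key _ (mon_mem a b hab)
        rw [hψ] at this
        simp only [map_mul, map_pow, fr_x, fr_y] at this
        rw [← this]; congr 1; ring
      intro a b hab
      rcases Nat.even_or_odd' a with ⟨a, rfl | rfl⟩
      · obtain ⟨b, rfl⟩ : ∃ l, b = 2 * l + 1 := ⟨b / 2, by omega⟩
        exact aux a b (by push_cast at hab; omega)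
      · obtain ⟨b, rfl⟩ : ∃ l, b = 2 * l := ⟨b / 2, by omega⟩
        have m := mon_mem _ _ hab
        rw [← ht _ m, ← hr _ (ta_mem m), ← aux b a (by push_cast at hab; omega)]
        simp only [map_mul, map_pow, ta_x, ta_y, rh_x, rh_z]
        congr 1; ring
  · intro f hf
    rw [hψ, hψ, fr_sg, ← hs _ (ym (fr_mem hf)), map_mul sg, sg_y]
  · intro f hf
    have m := fr_mem hf
    have e1 : y * rh (fr f) = rh (x * fr f) := by rw [map_mul, rh_x]
    have e2 : y * rh (rh (fr f)) = rh (rh (z * fr f)) := by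
      rw [map_mul, map_mul, rh_z, rh_x]
    have m1 : x * fr f ∈ Hom (2 * g + 1) := Hom_mul x_mem m (by ring)
    have m2 : z * fr f ∈ Hom (2 * g + 1) := Hom_mul z_mem m (by ring)
    rw [hψ, hψ, hψ, fr_rh, fr_rh, fr_rh, e1, e2, hr _ m1, hr _ (rh_mem m2), hr _ m2,
      ← map_add, ← map_add, z_eq]
    have : y * fr f + x * fr f + (x + y) * fr f = 0 := by
      linear_combination ((x + y) * fr f) * two_R
    rw [this, map_zero]
  · intro a ha
    rw [hΘ _ (A_Hom ha)]
    obtain ⟨k1, k2, k3⟩ := kp_A ha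
    have e1 := ht _ (ym k3)
    have e2 := hs _ (Hom_mul z_mem k3 (by ring))
    rw [map_mul, k2, ta_y] at e1
    rw [map_mul, k1, sg_z] at e2
    have e3 : z * kp a = x * kp a + y * kp a := by rw [z_eq]; ring
    have e4 := congrArg χ e3
    rw [map_add, e2] at e4
    simpa using e4
  · intro a ha
    rw [hΘ _ (Hom_mul (A_Hom ha) (Hom_mul x_mem y_mem rfl) (by ring))]
    obtain ⟨k1, k2, k3⟩ := kp_A ha
    simp only [map_mul, kp_x, kp_y]
    have m1 : y * (kp a * (x ^ 2 * (y * z))) ∈ Hom (2 * g + 1) :=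
      Hom_mul y_mem (Hom_mul k3 (Hom_mul (pow1_mem x_mem 2 rfl) (Hom_mul y_mem z_mem rfl) rfl) rfl)
        (by push_cast; ring)
    have m2 : kp a * (y ^ 3 * z ^ 2) ∈ Hom (2 * g + 1) :=
      Hom_mul k3 (Hom_mul (pow1_mem y_mem 3 rfl) (pow1_mem z_mem 2 rfl) rfl) (by push_cast; ring)
    rw [← hs _ m1]
    have e2 := ht _ m2
    simp only [map_mul, map_pow, k1, k2, sg_x, sg_y, sg_z, ta_y, ta_z] at e2 ⊢
    have e3 : y * (kp a * (z ^ 2 * (y * x))) = kp a * (z ^ 3 * y ^ 2) + kp a * (y ^ 3 * z ^ 2) := by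
      have : x = y + z := by rw [z_eq]; linear_combination (-y) * two_R
      conv_lhs => rw [this]
      ring
    rw [e3, map_add, e2, add_self_F]

end Pool.Agent.MP_fd75d0_co

end

section

set_option autoImplicit false

namespace Pool.Agent.MP_fd75d0_co

open MvPolynomial Finset

noncomputable def phi0 (s : ℕ → F) : Polynomial F →ₗ[F] F :=
  (Polynomial.basisMonomials F).constr F s

lemma phi0_X_pow (s : ℕ → F) (k : ℕ) : phi0 s (Polynomial.X ^ k) = s k := by
  have := (Polynomial.basisMonomials F).constr_basis F s k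
  rw [Polynomial.coe_basisMonomials] at this
  simp only [Polynomial.monomial_one_right_eq_X_pow] at this
  exact this

noncomputable def dh : R →+* Polynomial F :=
  eval₂Hom Polynomial.C ![1 + Polynomial.X, Polynomial.X]

lemma dh_x : dh x = 1 + Polynomial.X := by simp [dh, x]
lemma dh_y : dh y = Polynomial.X := by simp [dh, y]
lemma dh_z : dh z = 1 := by
  have h2 : (2 : Polynomial F) = 0 := by
    have : ((2 : ℕ) : Polynomial F) = 0 := CharP.cast_eq_zero _ 2
    simpa using this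
  rw [z_eq, map_add, dh_x, dh_y]; linear_combination Polynomial.X * h2

noncomputable def phi (s : ℕ → F) : R →+ F :=
  (phi0 s).toAddMonoidHom.comp dh.toAddMonoidHom

lemma phi_apply (s : ℕ → F) (f : R) : phi s f = phi0 s (dh f) := rfl

lemma phi_z (s : ℕ → F) (f : R) : phi s (f * z) = phi s f := by
  rw [phi_apply, map_mul, dh_z, mul_one, phi_apply]

lemma phi_z_pow (s : ℕ → F) (f : R) (c : ℕ) : phi s (f * z ^ c) = phi s f := by
  rw [phi_apply, map_mul, map_pow, dh_z, one_pow, mul_one, phi_apply]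

/-- the entry in row a at offset b of the Steinhaus triangle -/
noncomputable def T (s : ℕ → F) (a b : ℕ) : F := phi s (x ^ a * y ^ b)

lemma phi_mon (s : ℕ → F) (a b c : ℕ) : phi s (x ^ a * y ^ b * z ^ c) = T s a b :=
  phi_z_pow s _ c

lemma T_zero (s : ℕ → F) (b : ℕ) : T s 0 b = s b := by
  simp [T, phi_apply, dh_y, phi0_X_pow]

lemma T_succ (s : ℕ → F) (a b : ℕ) : T s (a + 1) b = T s a b + T s a (b + 1) := by
  rw [← phi_mon s a b 1, T, T, ← map_add]
  congr 1; rw [z_eq]; linear_combination (-(x ^ a * y ^ b * y)) * two_R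

lemma T_formula (s : ℕ → F) (a b : ℕ) :
    T s a b = ∑ k ∈ range (a + 1), ((Nat.choose a k : ℕ) : F) * s (a + 1 + b - k - 1) := by
  rw [T, phi_apply, map_mul, map_pow, map_pow, dh_x, dh_y, add_pow, sum_mul, map_sum]
  refine sum_congr rfl fun k hk => ?_
  have hk' : k ≤ a := by simpa [Nat.lt_succ_iff] using hk
  have : (1 : Polynomial F) ^ k * Polynomial.X ^ (a - k) * ((Nat.choose a k : ℕ) : Polynomial F)
      * Polynomial.X ^ b
      = ((Nat.choose a k : ℕ) : F) • Polynomial.X ^ (a + 1 + b - k - 1) := by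
    have e : a + 1 + b - k - 1 = (a - k) + b := by omega
    rw [e, pow_add, Polynomial.smul_eq_C_mul, map_natCast]; ring
  rw [this, map_smul, phi0_X_pow, smul_eq_mul]

lemma gs (p q r : R) (h : p + q = r) (k : ℕ) :
    r * ∑ b ∈ range k, p ^ b * q ^ (k - 1 - b) = p ^ k + q ^ k := by
  have := geom_sum₂_mul p q k
  subst h
  linear_combination this + (q * ∑ b ∈ range k, p ^ b * q ^ (k - 1 - b) - q ^ k) * two_R

lemma yz_x : y + z = x := by rw [z_eq]; linear_combination y * two_R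

/-- the mirror relation for a triangle all of whose degrees are odd -/
lemma mirror (s : ℕ → F) (N : ℕ)
    (h : ∀ i ≤ N, ∑ a ∈ range i, T s a (i - 1 - a) + ∑ b ∈ range (N - i), T s i b = 1)
    {f : R} (hf : f ∈ Hom ((N : ℤ) - 1)) :
    phi s (sg f) = phi s f + ev 0 1 f + ev 1 1 f := by
  have key : ∀ g ∈ Hom N, ∃ f', x * z * f' = z * g + ta (z * g) + rh (z * g) ∧
      phi s f' = ev 1 1 g := by
    intro g hg
    refine Hom_ind (P := fun g => ∃ f', x * z * f' = z * g + ta (z * g) + rh (z * g) ∧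
      phi s f' = ev 1 1 g) ⟨0, by simp, by simp⟩ ?_ ?_ hg
    · rintro f g ⟨f', h1, h2⟩ ⟨g', k1, k2⟩
      refine ⟨f' + g', ?_, by rw [map_add, map_add, h2, k2]⟩
      simp only [map_add, mul_add]
      linear_combination h1 + k1
    · intro i j hij
      have hj : j = N - i := by omega
      refine ⟨(∑ a ∈ range i, x ^ a * y ^ (i - 1 - a)) * z ^ j
        + x ^ i * ∑ b ∈ range j, y ^ b * z ^ (j - 1 - b), ?_, ?_⟩
      · have e1 := gs x y z z_eq.symm i
        have e2 := gs y z x yz_x j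
        simp only [map_mul, map_pow, ta_x, ta_y, ta_z, rh_x, rh_y, rh_z]
        linear_combination (x * z ^ j) * e1 + (z * x ^ i) * e2 + (x ^ i * z ^ j) * z_eq
          + (x ^ i * z ^ j * x) * two_R
      · have := h i (by omega)
        rw [map_add, phi_z_pow, map_sum, mul_sum, map_sum]
        simp only [← mul_assoc, phi_mon, ← hj] at this ⊢
        simpa [T] using this
  have hg : x * (f + sg f) ∈ Hom N := Hom_mul x_mem (add_mem hf (sg_mem hf)) (by ring)
  obtain ⟨f', h1, h2⟩ := key _ hg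
  have hG : sg (z * (x * (f + sg f))) = z * (x * (f + sg f)) := by
    simp only [map_mul, map_add, sg_x, sg_z, sg_sg]; ring
  have hG2 : rh (z * (x * (f + sg f))) = ta (z * (x * (f + sg f))) := by
    rw [← rh_sg, hG]
  rw [hG2, add_assoc, add_self_R, add_zero] at h1
  have : f' = f + sg f := by
    apply mul_left_cancel₀ (mul_ne_zero x_ne z_ne)
    rw [h1]; ring
  subst this
  have e : ev 1 1 (sg f) = ev 0 1 f :=
    DFunLike.congr_fun (hom_ext ((ev 1 1).comp sg) (ev 0 1) (by simp; decide) (by simp)) f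
  simp only [map_add, map_mul, ev_x, one_mul, e] at h2
  have h3 := add_self_F (phi s f)
  linear_combination h2 - h3

lemma mirror_T (s : ℕ → F) (N : ℕ)
    (h : ∀ i ≤ N, ∑ a ∈ range i, T s a (i - 1 - a) + ∑ b ∈ range (N - i), T s i b = 1)
    (a b c : ℕ) (habc : a + b + c + 1 = N) : T s c b = T s a b + 0 ^ a + 0 ^ c := by
  have := mirror s N h (mon3_mem a b c (by omega))
  simp only [map_mul, map_pow, sg_x, sg_y, sg_z, ev_x, ev_y, ev_z, phi_mon] at this
  have e : z ^ a * y ^ b * x ^ c = x ^ c * y ^ b * z ^ a := by ring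
  have e2 : (1 : F) + 1 = 0 := by decide
  rw [e, phi_mon, e2] at this
  simpa using this

end Pool.Agent.MP_fd75d0_co

end
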